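import Mathlib

/-!
# Two-bend drawings in general position from axis labellings

Given positions `P : V → Fin 3 → ℤ` that are injective on every axis and a labelling of the
half-edges by axes such that the two labels of an edge are different and two edges having the same
label at a vertex lead to different sides of that vertex, the graph has a 3D orthogonal
point-drawing with at most two bends per edge (the routes leave every vertex along the labelled
axis up to the coordinate of the other end). Crossings are removed by swapping labels: a labelling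
of maximal total port length has no crossing.
-/

set_option autoImplicit false

namespace Pool.Agent.TB

def Btw (a b c : ℤ) : Prop := (a ≤ b ∧ b ≤ c) ∨ (c ≤ b ∧ b ≤ a)

theorem btw_comm {a b c : ℤ} : Btw a b c ↔ Btw c b a := by
  unfold Btw
  tauto

theorem third : ∀ a c : Fin 3, a ≠ c → ∃ d : Fin 3, d ≠ a ∧ d ≠ c ∧
    ∀ j, j ≠ d → j = a ∨ j = c := by decide

theorem third_eq : ∀ a c d e : Fin 3, a ≠ c → d ≠ a → d ≠ c → e ≠ a → e ≠ c → d = e := by decide

theorem third_ne : ∀ a : Fin 3, ∃ d : Fin 3, d ≠ a := by decide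

section

variable {V : Type} [Fintype V] [DecidableEq V] (G : SimpleGraph V) (P : V → Fin 3 → ℤ)

/-- Labellings of the half-edges: different labels at the two ends of an edge, and edges with the
same label at a vertex leave it to different sides. -/
def Valid (α : V → V → Fin 3) : Prop :=
  (∀ u v, G.Adj u v → α u v ≠ α v u) ∧
  (∀ u v v', G.Adj u v → G.Adj u v' → v ≠ v' → α u v = α u v' →
    (P v (α u v) < P u (α u v) ∧ P u (α u v) < P v' (α u v)) ∨
    (P v' (α u v) < P u (α u v) ∧ P u (α u v) < P v (α u v)))

open Classical in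
/-- Length of the port of the half-edge `u → v`. -/
noncomputable def wt (α : V → V → Fin 3) (u v : V) : ℤ :=
  if G.Adj u v then |P v (α u v) - P u (α u v)| else 0

noncomputable def score (α : V → V → Fin 3) : ℤ := ∑ u, ∑ v, wt G P α u v

variable {G P}

theorem exists_max (α₀ : V → V → Fin 3) (h₀ : Valid G P α₀) :
    ∃ α, Valid G P α ∧ ∀ α', Valid G P α' → score G P α' ≤ score G P α := by
  classical
  obtain ⟨α, hα, hmax⟩ := Finset.exists_max_image
    (Finset.univ.filter fun α : V → V → Fin 3 => Valid G P α) (score G P)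
    ⟨α₀, by simp [h₀]⟩
  refine ⟨α, by simpa using hα, ?_⟩
  intro α' hα'
  exact hmax α' (by simp [hα'])

/-- The labels of two half-edges at `z` are swapped. -/
def swp (α : V → V → Fin 3) (z p q : V) : V → V → Fin 3 := fun u v =>
  if u = z then α z (Equiv.swap p q v) else α u v

omit [Fintype V] in
theorem swp_ne (α : V → V → Fin 3) (z p q u v : V) (h : u ≠ z) : swp α z p q u v = α u v := by
  simp [swp, h]

omit [Fintype V] in
theorem swp_z (α : V → V → Fin 3) (z p q v : V) :
    swp α z p q z v = α z (Equiv.swap p q v) := by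
  simp [swp]

theorem no_cross (hP : ∀ a u v, P u a = P v a → u = v) (α : V → V → Fin 3)
    (hv : Valid G P α) (hmax : ∀ α', Valid G P α' → score G P α' ≤ score G P α)
    (z p q : V) (hzp : G.Adj z p) (hzq : G.Adj z q) (hpq : p ≠ q) (h1 : α p z = α q z)
    (h3 : Btw (P z (α z p)) (P p (α z p)) (P q (α z p)))
    (h4 : Btw (P z (α z q)) (P q (α z q)) (P p (α z q))) : False := by
  classical
  have hzp' : z ≠ p := hzp.ne
  have hzq' : z ≠ q := hzq.ne
  have n1 : P z (α z p) ≠ P p (α z p) := fun h => hzp' (hP _ _ _ h)
  have n2 : P p (α z p) ≠ P q (α z p) := fun h => hpq (hP _ _ _ h)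
  have n3 : P z (α z q) ≠ P q (α z q) := fun h => hzq' (hP _ _ _ h)
  have n4 : P q (α z q) ≠ P p (α z q) := fun h => hpq (hP _ _ _ h).symm
  have hvalid : Valid G P (swp α z p q) := by
    refine ⟨?_, ?_⟩
    · intro u v huv
      by_cases hu : u = z
      · subst hu
        rw [swp_z, swp_ne _ _ _ _ _ _ huv.ne']
        by_cases hvp : v = p
        · subst hvp
          rw [Equiv.swap_apply_left, h1]
          exact hv.1 _ _ hzq
        · by_cases hvq : v = q
          · subst hvq
            rw [Equiv.swap_apply_right, ← h1]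
            exact hv.1 _ _ hzp
          · rw [Equiv.swap_apply_of_ne_of_ne hvp hvq]
            exact hv.1 _ _ huv
      · rw [swp_ne _ _ _ _ _ _ hu]
        by_cases hvz : v = z
        · subst hvz
          rw [swp_z]
          by_cases hvp : u = p
          · subst hvp
            rw [Equiv.swap_apply_left, h1]
            exact (hv.1 _ _ hzq).symm
          · by_cases hvq : u = q
            · subst hvq
              rw [Equiv.swap_apply_right, ← h1]
              exact (hv.1 _ _ hzp).symm
            · rw [Equiv.swap_apply_of_ne_of_ne hvp hvq]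
              exact (hv.1 _ _ huv.symm).symm
        · rw [swp_ne _ _ _ _ _ _ hvz]
          exact hv.1 _ _ huv
    · intro u v v' huv huv' hvv hl
      by_cases hu : u = z
      · subst hu
        rw [swp_z] at hl ⊢
        rw [swp_z] at hl
        by_cases hvp : v = p
        · subst hvp
          by_cases hv'q : v' = q
          · subst hv'q
            rw [Equiv.swap_apply_left] at hl ⊢
            rw [Equiv.swap_apply_right] at hl
            have := hv.2 _ _ _ hzp hzq hpq hl.symm
            rw [hl] at h4 n3 n4
            unfold Btw at h3 h4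
            omega
          · rw [Equiv.swap_apply_left] at hl ⊢
            rw [Equiv.swap_apply_of_ne_of_ne hvv.symm hv'q] at hl
            have := hv.2 _ _ _ hzq huv' (Ne.symm hv'q) hl
            unfold Btw at h3 h4
            omega
        · by_cases hvq : v = q
          · subst hvq
            by_cases hv'p : v' = p
            · subst hv'p
              rw [Equiv.swap_apply_left] at hl
              rw [Equiv.swap_apply_right] at hl ⊢
              have := hv.2 _ _ _ hzp hzq hpq hl
              rw [← hl] at h4 n3 n4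
              unfold Btw at h3 h4
              omega
            · rw [Equiv.swap_apply_right] at hl ⊢
              rw [Equiv.swap_apply_of_ne_of_ne hv'p hvv.symm] at hl
              have := hv.2 _ _ _ hzp huv' (Ne.symm hv'p) hl
              unfold Btw at h3 h4
              omega
          · rw [Equiv.swap_apply_of_ne_of_ne hvp hvq] at hl ⊢
            by_cases hv'p : v' = p
            · subst hv'p
              rw [Equiv.swap_apply_left] at hl
              have := hv.2 _ _ _ huv hzq hvq hl
              rw [← hl] at h4 n3 n4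
              unfold Btw at h3 h4
              omega
            · by_cases hv'q : v' = q
              · subst hv'q
                rw [Equiv.swap_apply_right] at hl
                have := hv.2 _ _ _ huv hzp hvp hl
                rw [← hl] at h3 n1 n2
                unfold Btw at h3 h4
                omega
              · rw [Equiv.swap_apply_of_ne_of_ne hv'p hv'q] at hl
                exact hv.2 _ _ _ huv huv' hvv hl
      · rw [swp_ne _ _ _ _ _ _ hu] at hl ⊢
        rw [swp_ne _ _ _ _ _ _ hu] at hl
        exact hv.2 _ _ _ huv huv' hvv hl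
  have hlt : score G P α < score G P (swp α z p q) := by
    unfold score
    apply Finset.sum_lt_sum
    · intro u _
      by_cases hu : u = z
      · subst hu
        rw [← Equiv.sum_comp (Equiv.swap p q) (fun v => wt G P (swp α u p q) u v)]
        apply Finset.sum_le_sum
        intro v _
        by_cases hvp : v = p
        · subst hvp
          rw [Equiv.swap_apply_left]
          unfold wt
          rw [if_pos hzp, if_pos hzq, swp_z, Equiv.swap_apply_right]
          unfold Btw at h3
          rcases h3 with h3 | h3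
          · rw [abs_of_nonneg (by omega), abs_of_nonneg (by omega)]
            omega
          · rw [abs_of_nonpos (by omega), abs_of_nonpos (by omega)]
            omega
        · by_cases hvq : v = q
          · subst hvq
            rw [Equiv.swap_apply_right]
            unfold wt
            rw [if_pos hzp, if_pos hzq, swp_z, Equiv.swap_apply_left]
            unfold Btw at h4
            rcases h4 with h4 | h4
            · rw [abs_of_nonneg (by omega), abs_of_nonneg (by omega)]
              omega
            · rw [abs_of_nonpos (by omega), abs_of_nonpos (by omega)]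
              omega
          · rw [Equiv.swap_apply_of_ne_of_ne hvp hvq]
            unfold wt
            rw [swp_z, Equiv.swap_apply_of_ne_of_ne hvp hvq]
      · apply Finset.sum_le_sum
        intro v _
        unfold wt
        rw [swp_ne _ _ _ _ _ _ hu]
    · refine ⟨z, Finset.mem_univ _, ?_⟩
      rw [← Equiv.sum_comp (Equiv.swap p q) (fun v => wt G P (swp α z p q) z v)]
      apply Finset.sum_lt_sum
      · intro v _
        by_cases hvp : v = p
        · subst hvp
          rw [Equiv.swap_apply_left]
          unfold wt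
          rw [if_pos hzp, if_pos hzq, swp_z, Equiv.swap_apply_right]
          unfold Btw at h3
          rcases h3 with h3 | h3
          · rw [abs_of_nonneg (by omega), abs_of_nonneg (by omega)]
            omega
          · rw [abs_of_nonpos (by omega), abs_of_nonpos (by omega)]
            omega
        · by_cases hvq : v = q
          · subst hvq
            rw [Equiv.swap_apply_right]
            unfold wt
            rw [if_pos hzp, if_pos hzq, swp_z, Equiv.swap_apply_left]
            unfold Btw at h4
            rcases h4 with h4 | h4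
            · rw [abs_of_nonneg (by omega), abs_of_nonneg (by omega)]
              omega
            · rw [abs_of_nonpos (by omega), abs_of_nonpos (by omega)]
              omega
          · rw [Equiv.swap_apply_of_ne_of_ne hvp hvq]
            unfold wt
            rw [swp_z, Equiv.swap_apply_of_ne_of_ne hvp hvq]
      · refine ⟨p, Finset.mem_univ _, ?_⟩
        rw [Equiv.swap_apply_left]
        unfold wt
        rw [if_pos hzp, if_pos hzq, swp_z, Equiv.swap_apply_right]
        unfold Btw at h3
        rcases h3 with h3 | h3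
        · rw [abs_of_nonneg (by omega), abs_of_nonneg (by omega)]
          omega
        · rw [abs_of_nonpos (by omega), abs_of_nonpos (by omega)]
          omega
  exact absurd (hmax _ hvalid) (not_le.mpr hlt)

/-! ### The routes -/

/-- The first bend of the route of the edge `uv`, seen from `u`. -/
def bend (P : V → Fin 3 → ℤ) (α : V → V → Fin 3) (u v : V) : Fin 3 → ℤ :=
  Function.update (P u) (α u v) (P v (α u v))

/-- The points of the first link. -/
def Port (P : V → Fin 3 → ℤ) (α : V → V → Fin 3) (u v : V) (x : Fin 3 → ℤ) : Prop :=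
  (∀ j, j ≠ α u v → x j = P u j) ∧ Btw (P u (α u v)) (x (α u v)) (P v (α u v))

/-- The points of the middle link. -/
def Mid (P : V → Fin 3 → ℤ) (α : V → V → Fin 3) (u v : V) (x : Fin 3 → ℤ) : Prop :=
  x (α u v) = P v (α u v) ∧ x (α v u) = P u (α v u) ∧
    ∀ j, j ≠ α u v → j ≠ α v u → Btw (P u j) (x j) (P v j)

def Seg (p q x : Fin 3 → ℤ) : Prop :=
  ∃ i : Fin 3, (∀ j : Fin 3, j ≠ i → x j = p j ∧ q j = p j) ∧
      ((p i ≤ x i ∧ x i ≤ q i) ∨ (q i ≤ x i ∧ x i ≤ p i))

omit [Fintype V] [DecidableEq V] in
theorem mid_symm {α : V → V → Fin 3} {u v : V} {x : Fin 3 → ℤ} (h : Mid P α u v x) :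
    Mid P α v u x :=
  ⟨h.2.1, h.1, fun j h1 h2 => btw_comm.mp (h.2.2 j h2 h1)⟩

omit [Fintype V] [DecidableEq V] in
theorem seg_port (hP : ∀ a u v, P u a = P v a → u = v) {α : V → V → Fin 3} {u v : V}
    (huv : u ≠ v) {x : Fin 3 → ℤ} (h : Seg (P u) (bend P α u v) x) : Port P α u v x := by
  obtain ⟨i, h1, h2⟩ := h
  have hi : i = α u v := by
    by_contra hne
    have h3 := (h1 (α u v) (Ne.symm hne)).2
    unfold bend at h3
    rw [Function.update_self] at h3
    exact huv (hP _ _ _ h3).symm
  subst hi
  refine ⟨fun j hj => (h1 j hj).1, ?_⟩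
  unfold bend at h2
  rw [Function.update_self] at h2
  exact h2

omit [Fintype V] [DecidableEq V] in
theorem seg_port' (hP : ∀ a u v, P u a = P v a → u = v) {α : V → V → Fin 3} {u v : V}
    (huv : u ≠ v) {x : Fin 3 → ℤ} (h : Seg (bend P α v u) (P v) x) : Port P α v u x := by
  obtain ⟨i, h1, h2⟩ := h
  have hi : i = α v u := by
    by_contra hne
    have h3 := (h1 (α v u) (Ne.symm hne)).2
    unfold bend at h3
    rw [Function.update_self] at h3
    exact huv (hP _ _ _ h3).symm
  subst hi
  refine ⟨fun j hj => ?_, ?_⟩
  · rw [(h1 j hj).1, ← (h1 j hj).2]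
  · unfold bend at h2
    rw [Function.update_self] at h2
    exact btw_comm.mp h2

omit [Fintype V] [DecidableEq V] in
theorem seg_mid (hP : ∀ a u v, P u a = P v a → u = v) {α : V → V → Fin 3} {u v : V}
    (huv : u ≠ v) (hα : α u v ≠ α v u) {x : Fin 3 → ℤ}
    (h : Seg (bend P α u v) (bend P α v u) x) : Mid P α u v x := by
  obtain ⟨d, hd1, hd2, hd3⟩ := third _ _ hα
  obtain ⟨i, h1, h2⟩ := h
  have hi : i = d := by
    by_contra hne
    have h3 := (h1 d (Ne.symm hne)).2
    unfold bend at h3
    rw [Function.update_of_ne hd1, Function.update_of_ne hd2] at h3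
    exact huv (hP _ _ _ h3).symm
  subst hi
  refine ⟨?_, ?_, ?_⟩
  · rw [(h1 _ hd1.symm).1]
    unfold bend
    rw [Function.update_self]
  · rw [(h1 _ hd2.symm).1]
    unfold bend
    rw [Function.update_of_ne hα.symm]
  · intro j hj1 hj2
    have hj : j = i := third_eq _ _ _ _ hα hj1 hj2 hd1 hd2
    subst hj
    unfold bend at h2
    rw [Function.update_of_ne hd1, Function.update_of_ne hd2] at h2
    exact h2

omit [Fintype V] [DecidableEq V] in
theorem port_port (hP : ∀ a u v, P u a = P v a → u = v) {α : V → V → Fin 3}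
    (hv : Valid G P α) {u v u' v' : V} (huv : G.Adj u v) (huv' : G.Adj u' v')
    (hne : ¬ (u = u' ∧ v = v')) {x : Fin 3 → ℤ}
    (h : Port P α u v x) (h' : Port P α u' v' x) : u = u' ∧ x = P u := by
  by_cases ha : α u v = α u' v'
  · obtain ⟨d, hd⟩ := third_ne (α u v)
    have h1 := h.1 d hd
    have h2 := h'.1 d (ha ▸ hd)
    have hu : u = u' := hP _ _ _ (h1.symm.trans h2)
    subst hu
    refine ⟨rfl, ?_⟩
    have hvv : v ≠ v' := fun hh => hne ⟨rfl, hh⟩
    have h3 := hv.2 u v v' huv huv' hvv ha
    have h4 := h.2
    have h5 := h'.2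
    rw [← ha] at h5
    unfold Btw at h4 h5
    funext j
    by_cases hj : j = α u v
    · subst hj
      omega
    · exact h.1 j hj
  · obtain ⟨d, hd1, hd2, hd3⟩ := third _ _ ha
    have hu : u = u' := hP _ _ _ ((h.1 d hd1).symm.trans (h'.1 d hd2))
    subst hu
    refine ⟨rfl, ?_⟩
    funext j
    by_cases hj : j = α u v
    · subst hj
      exact h'.1 _ ha
    · exact h.1 j hj

omit [Fintype V] [DecidableEq V] in
theorem port_mid (hP : ∀ a u v, P u a = P v a → u = v) {α : V → V → Fin 3}
    (hv : Valid G P α) {u v u' v' : V} (huv : G.Adj u v) (huv' : G.Adj u' v')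
    (hne : ¬ (u = u' ∧ v = v')) (hne' : ¬ (u = v' ∧ v = u')) {x : Fin 3 → ℤ}
    (h : Port P α u v x) (h' : Mid P α u' v' x) : False := by
  have hα := hv.1 _ _ huv'
  by_cases ha : α u v = α u' v'
  · have h1 : u = u' := by
      have h2 := h.1 (α v' u') (by rw [ha]; exact hα.symm)
      exact hP _ _ _ (h2.symm.trans h'.2.1)
    subst h1
    have hvv : v ≠ v' := fun hh => hne ⟨rfl, hh⟩
    have h3 := hv.2 u v v' huv huv' hvv ha
    have h4 := h.2
    have h5 := h'.1
    rw [← ha] at h5
    rw [h5] at h4
    unfold Btw at h4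
    omega
  · by_cases hc : α u v = α v' u'
    · have h1 : u = v' := by
        have h2 := h.1 (α u' v') (Ne.symm ha)
        exact hP _ _ _ (h2.symm.trans h'.1)
      subst h1
      have hvv : v ≠ u' := fun hh => hne' ⟨rfl, hh⟩
      have h3 := hv.2 u v u' huv huv'.symm hvv hc
      have h4 := h.2
      have h5 := h'.2.1
      rw [← hc] at h5
      rw [h5] at h4
      unfold Btw at h4
      omega
    · have h1 : u = v' := by
        have h2 := h.1 (α u' v') (Ne.symm ha)
        exact hP _ _ _ (h2.symm.trans h'.1)
      have h2 : u = u' := by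
        have h2 := h.1 (α v' u') (Ne.symm hc)
        exact hP _ _ _ (h2.symm.trans h'.2.1)
      exact huv'.ne (h2.symm.trans h1)

theorem mid_mid (hP : ∀ a u v, P u a = P v a → u = v) (α : V → V → Fin 3)
    (hv : Valid G P α) (hmax : ∀ α', Valid G P α' → score G P α' ≤ score G P α)
    {u v u' v' : V} (huv : G.Adj u v) (huv' : G.Adj u' v')
    (hne : ¬ (u = u' ∧ v = v')) (hne' : ¬ (u = v' ∧ v = u')) {x : Fin 3 → ℤ}
    (h : Mid P α u v x) (h' : Mid P α u' v' x) : False := by
  have hα := hv.1 _ _ huv
  have hα' := hv.1 _ _ huv'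
  by_cases h1 : α u' v' = α u v
  · -- common vertex `v = v'`
    have hvv : v = v' := by
      have h2 := h'.1
      rw [h1, h.1] at h2
      exact hP _ _ _ h2
    subst hvv
    have huu : u ≠ u' := fun hh => hne ⟨hh, rfl⟩
    by_cases h2 : α v u' = α v u
    · have h3 := h'.2.1
      rw [h2, h.2.1] at h3
      exact huu (hP _ _ _ h3)
    · have h3 := h.2.2 (α v u') (fun hh => hα' (h1.trans hh.symm)) h2
      rw [h'.2.1] at h3
      have h4 := h'.2.2 (α v u) (fun hh => hα (h1.symm.trans hh.symm)) (Ne.symm h2)
      rw [h.2.1] at h4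
      exact no_cross hP α hv hmax v u u' huv.symm huv'.symm huu h1.symm
        (btw_comm.mp h4) (btw_comm.mp h3)
  · by_cases h2 : α u' v' = α v u
    · -- common vertex `u = v'`
      have hvv : u = v' := by
        have h3 := h'.1
        rw [h2, h.2.1] at h3
        exact hP _ _ _ h3
      subst hvv
      have huu : v ≠ u' := fun hh => hne' ⟨rfl, hh⟩
      by_cases h3 : α u u' = α u v
      · have h4 := h'.2.1
        rw [h3, h.1] at h4
        exact huu (hP _ _ _ h4)
      · have h4 := h.2.2 (α u u') h3 (fun hh => hα' (h2.trans hh.symm))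
        rw [h'.2.1] at h4
        have h5 := h'.2.2 (α u v) (Ne.symm h1) (Ne.symm h3)
        rw [h.1] at h5
        exact no_cross hP α hv hmax u v u' huv huv'.symm huu h2.symm
          (btw_comm.mp h5) h4
    · have h3 : α v' u' = α u v ∨ α v' u' = α v u := by
        by_contra hcon
        rw [not_or] at hcon
        exact hα' (third_eq _ _ _ _ hα h1 h2 hcon.1 hcon.2)
      rcases h3 with h3 | h3
      · -- common vertex `v = u'`
        have hvv : v = u' := by
          have h4 := h'.2.1
          rw [h3, h.1] at h4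
          exact hP _ _ _ h4
        subst hvv
        have huu : u ≠ v' := fun hh => hne' ⟨hh, rfl⟩
        have h4 := h.2.2 (α v v') h1 h2
        rw [h'.1] at h4
        have h5 := h'.2.2 (α v u) (Ne.symm h2) (by rw [h3]; exact hα.symm)
        rw [h.2.1] at h5
        exact no_cross hP α hv hmax v u v' huv.symm huv' huu h3.symm h5 (btw_comm.mp h4)
      · -- common vertex `u = u'`
        have hvv : u = u' := by
          have h4 := h'.2.1
          rw [h3, h.2.1] at h4
          exact hP _ _ _ h4
        subst hvv
        have huu : v ≠ v' := fun hh => hne ⟨rfl, hh⟩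
        have h4 := h.2.2 (α u v') h1 h2
        rw [h'.1] at h4
        have h5 := h'.2.2 (α u v) (Ne.symm h1) (by rw [h3]; exact hα)
        rw [h.1] at h5
        exact no_cross hP α hv hmax u v v' huv huv' huu h3.symm h5 h4

/-- **Two-bend drawings from labellings.** -/
theorem drawing (hP : ∀ a u v, P u a = P v a → u = v) (α₀ : V → V → Fin 3)
    (h₀ : Valid G P α₀) :
    ∃ (b₁ b₂ : V → V → Fin 3 → ℤ),
    Function.Injective P ∧
    (∀ u v, G.Adj u v →
      (∃ i : Fin 3, ∀ j : Fin 3, j ≠ i → P u j = b₁ u v j) ∧
      (∃ i : Fin 3, ∀ j : Fin 3, j ≠ i → b₁ u v j = b₂ u v j) ∧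
      (∃ i : Fin 3, ∀ j : Fin 3, j ≠ i → b₂ u v j = P v j)) ∧
    (∀ u v w, G.Adj u v →
      (Seg (P u) (b₁ u v) (P w) ∨ Seg (b₁ u v) (b₂ u v) (P w) ∨ Seg (b₂ u v) (P v) (P w)) →
      w = u ∨ w = v) ∧
    (∀ u v u' v' x, G.Adj u v → G.Adj u' v' → s(u, v) ≠ s(u', v') →
      (Seg (P u) (b₁ u v) x ∨ Seg (b₁ u v) (b₂ u v) x ∨ Seg (b₂ u v) (P v) x) →
      (Seg (P u') (b₁ u' v') x ∨ Seg (b₁ u' v') (b₂ u' v') x ∨ Seg (b₂ u' v') (P v') x) →
      ∃ w, x = P w ∧ (w = u ∨ w = v) ∧ (w = u' ∨ w = v')) := by
  obtain ⟨α, hv, hmax⟩ := exists_max α₀ h₀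
  have hroute : ∀ u v x, G.Adj u v →
      (Seg (P u) (bend P α u v) x ∨ Seg (bend P α u v) (bend P α v u) x ∨
        Seg (bend P α v u) (P v) x) → Port P α u v x ∨ Mid P α u v x ∨ Port P α v u x := by
    intro u v x huv h
    rcases h with h | h | h
    · exact Or.inl (seg_port hP huv.ne h)
    · exact Or.inr (Or.inl (seg_mid hP huv.ne (hv.1 _ _ huv) h))
    · exact Or.inr (Or.inr (seg_port' hP huv.ne h))
  refine ⟨bend P α, fun u v => bend P α v u, ?_, ?_, ?_, ?_⟩
  · intro u v huv
    exact hP 0 _ _ (congrFun huv 0)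
  · intro u v huv
    refine ⟨⟨α u v, fun j hj => ?_⟩, ?_, ⟨α v u, fun j hj => ?_⟩⟩
    · show P u j = Function.update (P u) (α u v) (P v (α u v)) j
      rw [Function.update_of_ne hj]
    · obtain ⟨d, hd1, hd2, hd3⟩ := third _ _ (hv.1 _ _ huv)
      refine ⟨d, fun j hj => ?_⟩
      show Function.update (P u) (α u v) (P v (α u v)) j =
        Function.update (P v) (α v u) (P u (α v u)) j
      rcases hd3 j hj with rfl | rfl
      · rw [Function.update_self, Function.update_of_ne (hv.1 _ _ huv)]
      · rw [Function.update_self, Function.update_of_ne (hv.1 _ _ huv).symm]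
    · show Function.update (P v) (α v u) (P u (α v u)) j = P v j
      rw [Function.update_of_ne hj]
  · intro u v w huv h
    rcases hroute u v _ huv h with h | h | h
    · obtain ⟨d, hd⟩ := third_ne (α u v)
      exact Or.inl (hP _ _ _ (h.1 d hd))
    · exact Or.inr (hP _ _ _ h.1)
    · obtain ⟨d, hd⟩ := third_ne (α v u)
      exact Or.inr (hP _ _ _ (h.1 d hd))
  · intro u v u' v' x huv huv' hne h h'
    have n1 : ¬ (u = u' ∧ v = v') := by
      rintro ⟨rfl, rfl⟩
      exact hne rfl
    have n2 : ¬ (u = v' ∧ v = u') := by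
      rintro ⟨rfl, rfl⟩
      exact hne Sym2.eq_swap
    rcases hroute u v _ huv h with h | h | h <;> rcases hroute u' v' _ huv' h' with h' | h' | h'
    · obtain ⟨e1, e2⟩ := port_port hP hv huv huv' n1 h h'
      exact ⟨u, e2, Or.inl rfl, Or.inl e1⟩
    · exact (port_mid hP hv huv huv' n1 n2 h h').elim
    · obtain ⟨e1, e2⟩ := port_port hP hv huv huv'.symm n2 h h'
      exact ⟨u, e2, Or.inl rfl, Or.inr e1⟩
    · exact (port_mid hP hv huv' huv (fun hh => n1 ⟨hh.1.symm, hh.2.symm⟩)
        (fun hh => n2 ⟨hh.2.symm, hh.1.symm⟩) h' h).elim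
    · exact (mid_mid hP α hv hmax huv huv' n1 n2 h h').elim
    · exact (port_mid hP hv huv'.symm huv (fun hh => n2 ⟨hh.1.symm, hh.2.symm⟩)
        (fun hh => n1 ⟨hh.2.symm, hh.1.symm⟩) h' h).elim
    · obtain ⟨e1, e2⟩ := port_port hP hv huv.symm huv' (fun hh => n2 ⟨hh.2, hh.1⟩) h h'
      exact ⟨v, e2, Or.inr rfl, Or.inl e1⟩
    · exact (port_mid hP hv huv.symm huv' (fun hh => n2 ⟨hh.2, hh.1⟩)
        (fun hh => n1 ⟨hh.2, hh.1⟩) h h').elim
    · obtain ⟨e1, e2⟩ := port_port hP hv huv.symm huv'.symm (fun hh => n1 ⟨hh.2, hh.1⟩) h h'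
      exact ⟨v, e2, Or.inr rfl, Or.inr e1⟩

end

end Pool.Agent.TB
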