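import Mathlib

/-!
# Koenig's edge colouring theorem for bipartite multigraphs

A bipartite multigraph is given by a finite type `E` of edges and the two end maps `l : E → L`,
`r : E → R`. If every fibre of `l` and `r` has at most `k` elements then `E` has a proper
colouring with `k` colours.
-/

set_option autoImplicit false

namespace Pool.Agent.TB

/-! ### Edge colourings of bipartite multigraphs (Koenig) -/

theorem koenig_reg (k : ℕ) : ∀ (E L R : Type) [Fintype E] [Fintype L] [Fintype R] [DecidableEq E]
    [DecidableEq L] [DecidableEq R] (l : E → L) (r : E → R),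
    (∀ x, (Finset.univ.filter fun e => l e = x).card = k) →
    (∀ y, (Finset.univ.filter fun e => r e = y).card = k) →
    ∃ c : E → Fin k, (∀ e e', l e = l e' → c e = c e' → e = e') ∧
      (∀ e e', r e = r e' → c e = c e' → e = e') := by
  induction k with
  | zero =>
    intro E L R _ _ _ _ _ _ l r hl hr
    have hE : IsEmpty E := ⟨fun e => by
      have h1 := hl (l e)
      rw [Finset.card_eq_zero, Finset.filter_eq_empty_iff] at h1
      exact h1 (Finset.mem_univ e) rfl⟩
    exact ⟨fun e => (hE.false e).elim, fun e => (hE.false e).elim, fun e => (hE.false e).elim⟩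
  | succ k ih =>
    intro E L R _ _ _ _ _ _ l r hl hr
    let t : L → Finset R := fun x => (Finset.univ.filter fun e => l e = x).image r
    have hall : ∀ s : Finset L, s.card ≤ (s.biUnion t).card := by
      intro s
      have h1 : (Finset.univ.filter fun e => l e ∈ s).card = s.card * (k + 1) := by
        rw [Finset.card_eq_sum_card_fiberwise (f := l) (t := s)
          (fun e he => by simpa using he)]
        rw [Finset.sum_const_nat (m := k + 1)]
        intro x hx
        rw [← hl x]
        congr 1
        ext e
        simp only [Finset.mem_filter, Finset.mem_univ, true_and]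
        constructor
        · rintro ⟨_, h⟩
          exact h
        · intro h
          exact ⟨by rw [h]; exact hx, h⟩
      have h2 : (Finset.univ.filter fun e => r e ∈ s.biUnion t).card =
          (s.biUnion t).card * (k + 1) := by
        rw [Finset.card_eq_sum_card_fiberwise (f := r) (t := s.biUnion t)
          (fun e he => by simpa using he)]
        rw [Finset.sum_const_nat (m := k + 1)]
        intro x hx
        rw [← hr x]
        congr 1
        ext e
        simp only [Finset.mem_filter, Finset.mem_univ, true_and]
        constructor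
        · rintro ⟨_, h⟩
          exact h
        · intro h
          exact ⟨by rw [h]; exact hx, h⟩
      have h3 : (Finset.univ.filter fun e => l e ∈ s) ⊆
          (Finset.univ.filter fun e => r e ∈ s.biUnion t) := by
        intro e he
        simp only [Finset.mem_filter, Finset.mem_univ, true_and] at he ⊢
        rw [Finset.mem_biUnion]
        exact ⟨l e, he, Finset.mem_image.mpr ⟨e, by simp, rfl⟩⟩
      have h4 := Finset.card_le_card h3
      rw [h1, h2] at h4
      exact Nat.le_of_mul_le_mul_right h4 (Nat.succ_pos k)
    obtain ⟨m, hm, hmt⟩ := (Finset.all_card_le_biUnion_card_iff_exists_injective t).mp hall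
    have hex : ∀ x, ∃ e, l e = x ∧ r e = m x := by
      intro x
      have h1 := hmt x
      simp only [t, Finset.mem_image, Finset.mem_filter, Finset.mem_univ, true_and] at h1
      exact h1
    choose ex hex1 hex2 using hex
    have hcard : Fintype.card L = Fintype.card R := by
      have h1 : Fintype.card E = Fintype.card L * (k + 1) := by
        rw [← Finset.card_univ, Finset.card_eq_sum_card_fiberwise (f := l) (t := Finset.univ)
          (fun e _ => Finset.mem_coe.mpr (Finset.mem_univ _)),
          Finset.sum_const_nat (fun x _ => hl x), Finset.card_univ]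
      have h2 : Fintype.card E = Fintype.card R * (k + 1) := by
        rw [← Finset.card_univ, Finset.card_eq_sum_card_fiberwise (f := r) (t := Finset.univ)
          (fun e _ => Finset.mem_coe.mpr (Finset.mem_univ _)),
          Finset.sum_const_nat (fun x _ => hr x), Finset.card_univ]
      exact Nat.eq_of_mul_eq_mul_right (Nat.succ_pos k) (h1.symm.trans h2)
    have hbij : Function.Bijective m := (Fintype.bijective_iff_injective_and_card m).mpr ⟨hm, hcard⟩
    obtain ⟨c, hc1, hc2⟩ := ih {e : E // e ≠ ex (l e)} L R (fun e => l e.1) (fun e => r e.1)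
      (by
        intro x
        have h1 : ((Finset.univ.filter fun e : {e : E // e ≠ ex (l e)} => l e.1 = x).map
            (Function.Embedding.subtype _)) =
            (Finset.univ.filter fun e => l e = x).erase (ex x) := by
          ext e
          simp only [Finset.mem_map, Finset.mem_filter, Finset.mem_univ, true_and,
            Function.Embedding.subtype_apply, Subtype.exists, exists_and_left, exists_prop,
            exists_eq_right_right, Finset.mem_erase]
          constructor
          · rintro ⟨h, h'⟩
            exact ⟨by rwa [h] at h', h⟩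
          · rintro ⟨h, h'⟩
            exact ⟨h', by rwa [h']⟩
        rw [← Finset.card_map, h1, Finset.card_erase_of_mem (by simp [hex1]), hl x]
        rfl)
      (by
        intro y
        obtain ⟨x, hx⟩ := hbij.2 y
        have h1 : ((Finset.univ.filter fun e : {e : E // e ≠ ex (l e)} => r e.1 = y).map
            (Function.Embedding.subtype _)) =
            (Finset.univ.filter fun e => r e = y).erase (ex x) := by
          ext e
          simp only [Finset.mem_map, Finset.mem_filter, Finset.mem_univ, true_and,
            Function.Embedding.subtype_apply, Subtype.exists, exists_and_left, exists_prop,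
            exists_eq_right_right, Finset.mem_erase]
          constructor
          · rintro ⟨h, h'⟩
            refine ⟨?_, h⟩
            rintro rfl
            exact h' (by rw [hex1])
          · rintro ⟨h, h'⟩
            refine ⟨h', ?_⟩
            intro h2
            apply h
            have h3 : m (l e) = m x := by
              rw [hx, ← h', ← hex2, ← h2]
            rw [← hm h3]
            exact h2
        rw [← Finset.card_map, h1, Finset.card_erase_of_mem (by simp [hex2, hx]), hr y]
        rfl)
    refine ⟨fun e => if h : e ≠ ex (l e) then (c ⟨e, h⟩).castSucc else Fin.last k, ?_, ?_⟩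
    · intro e e' hle hce
      by_cases h : e ≠ ex (l e) <;> by_cases h' : e' ≠ ex (l e')
      · simp only [h, h', dif_pos, ne_eq, not_false_eq_true] at hce
        have := hc1 ⟨e, h⟩ ⟨e', h'⟩ hle (Fin.castSucc_injective k hce)
        exact congrArg Subtype.val this
      · simp only [h, h', dif_pos, dif_neg, ne_eq, not_false_eq_true] at hce
        exact absurd hce (Fin.castSucc_ne_last _)
      · simp only [h, h', dif_pos, dif_neg, ne_eq, not_false_eq_true] at hce
        exact absurd hce.symm (Fin.castSucc_ne_last _)
      · rw [not_not] at h h'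
        rw [h, h', hle]
    · intro e e' hre hce
      by_cases h : e ≠ ex (l e) <;> by_cases h' : e' ≠ ex (l e')
      · simp only [h, h', dif_pos, ne_eq, not_false_eq_true] at hce
        have := hc2 ⟨e, h⟩ ⟨e', h'⟩ hre (Fin.castSucc_injective k hce)
        exact congrArg Subtype.val this
      · simp only [h, h', dif_pos, dif_neg, ne_eq, not_false_eq_true] at hce
        exact absurd hce (Fin.castSucc_ne_last _)
      · simp only [h, h', dif_pos, dif_neg, ne_eq, not_false_eq_true] at hce
        exact absurd hce.symm (Fin.castSucc_ne_last _)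
      · rw [not_not] at h h'
        have h1 : m (l e) = m (l e') := by
          rw [← hex2, ← hex2, ← h, ← h', hre]
        rw [h, h', hm h1]

theorem card_ll (E E' L R : Type) [Fintype E] [Fintype E'] [Fintype L] [Fintype R]
    [DecidableEq L] [DecidableEq R] (l : E → L) (r : E' → R) (f : L → ℕ) (g : R → ℕ) (x : L) :
    (Finset.univ.filter fun i : (E ⊕ E') ⊕ ((Σ x : L, Fin (f x)) ⊕ (Σ y : R, Fin (g y))) =>
      Sum.elim (Sum.elim (fun e => (Sum.inl (l e) : L ⊕ R)) (fun e => Sum.inr (r e)))
        (Sum.elim (fun z => Sum.inl z.1) (fun z => Sum.inr z.1)) i = Sum.inl x).card =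
    (Finset.univ.filter fun e => l e = x).card + f x := by
  rw [Finset.card_filter, Fintype.sum_sum_type, Fintype.sum_sum_type, Fintype.sum_sum_type,
    Fintype.sum_sigma, Fintype.sum_sigma]
  simp

theorem card_lr (E E' L R : Type) [Fintype E] [Fintype E'] [Fintype L] [Fintype R]
    [DecidableEq L] [DecidableEq R] (l : E → L) (r : E' → R) (f : L → ℕ) (g : R → ℕ) (y : R) :
    (Finset.univ.filter fun i : (E ⊕ E') ⊕ ((Σ x : L, Fin (f x)) ⊕ (Σ y : R, Fin (g y))) =>
      Sum.elim (Sum.elim (fun e => (Sum.inl (l e) : L ⊕ R)) (fun e => Sum.inr (r e)))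
        (Sum.elim (fun z => Sum.inl z.1) (fun z => Sum.inr z.1)) i = Sum.inr y).card =
    (Finset.univ.filter fun e => r e = y).card + g y := by
  rw [Finset.card_filter, Fintype.sum_sum_type, Fintype.sum_sum_type, Fintype.sum_sum_type,
    Fintype.sum_sigma, Fintype.sum_sigma]
  simp

theorem card_rl (E E' L R : Type) [Fintype E] [Fintype E'] [Fintype L] [Fintype R]
    [DecidableEq L] [DecidableEq R] (r : E → R) (l : E' → L) (f : L → ℕ) (g : R → ℕ) (y : R) :
    (Finset.univ.filter fun i : (E ⊕ E') ⊕ ((Σ x : L, Fin (f x)) ⊕ (Σ y : R, Fin (g y))) =>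
      Sum.elim (Sum.elim (fun e => (Sum.inl (r e) : R ⊕ L)) (fun e => Sum.inr (l e)))
        (Sum.elim (fun z => Sum.inr z.1) (fun z => Sum.inl z.1)) i = Sum.inl y).card =
    (Finset.univ.filter fun e => r e = y).card + g y := by
  rw [Finset.card_filter, Fintype.sum_sum_type, Fintype.sum_sum_type, Fintype.sum_sum_type,
    Fintype.sum_sigma, Fintype.sum_sigma]
  simp

theorem card_rr (E E' L R : Type) [Fintype E] [Fintype E'] [Fintype L] [Fintype R]
    [DecidableEq L] [DecidableEq R] (r : E → R) (l : E' → L) (f : L → ℕ) (g : R → ℕ) (x : L) :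
    (Finset.univ.filter fun i : (E ⊕ E') ⊕ ((Σ x : L, Fin (f x)) ⊕ (Σ y : R, Fin (g y))) =>
      Sum.elim (Sum.elim (fun e => (Sum.inl (r e) : R ⊕ L)) (fun e => Sum.inr (l e)))
        (Sum.elim (fun z => Sum.inr z.1) (fun z => Sum.inl z.1)) i = Sum.inr x).card =
    (Finset.univ.filter fun e => l e = x).card + f x := by
  rw [Finset.card_filter, Fintype.sum_sum_type, Fintype.sum_sum_type, Fintype.sum_sum_type,
    Fintype.sum_sigma, Fintype.sum_sigma]
  simp

theorem koenig (k : ℕ) (E L R : Type) [Fintype E] [Fintype L] [Fintype R] [DecidableEq E]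
    [DecidableEq L] [DecidableEq R] (l : E → L) (r : E → R)
    (hl : ∀ x, (Finset.univ.filter fun e => l e = x).card ≤ k)
    (hr : ∀ y, (Finset.univ.filter fun e => r e = y).card ≤ k) :
    ∃ c : E → Fin k, (∀ e e', l e = l e' → c e = c e' → e = e') ∧
      (∀ e e', r e = r e' → c e = c e' → e = e') := by
  obtain ⟨c, hc1, hc2⟩ := koenig_reg k
    ((E ⊕ E) ⊕ ((Σ x : L, Fin (k - (Finset.univ.filter fun e => l e = x).card)) ⊕
      (Σ y : R, Fin (k - (Finset.univ.filter fun e => r e = y).card)))) (L ⊕ R) (R ⊕ L)
    (Sum.elim (Sum.elim (fun e => (Sum.inl (l e) : L ⊕ R)) (fun e => Sum.inr (r e)))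
        (Sum.elim (fun z => Sum.inl z.1) (fun z => Sum.inr z.1)))
    (Sum.elim (Sum.elim (fun e => (Sum.inl (r e) : R ⊕ L)) (fun e => Sum.inr (l e)))
        (Sum.elim (fun z => Sum.inr z.1) (fun z => Sum.inl z.1)))
    (by
      rintro (x | y)
      · rw [card_ll E E L R l r _ _ x]
        have := hl x
        omega
      · rw [card_lr E E L R l r _ _ y]
        have := hr y
        omega)
    (by
      rintro (y | x)
      · rw [card_rl E E L R r l _ _ y]
        have := hr y
        omega
      · rw [card_rr E E L R r l _ _ x]
        have := hl x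
        omega)
  refine ⟨fun e => c (Sum.inl (Sum.inl e)), ?_, ?_⟩
  · intro e e' h1 h2
    have h3 := hc1 (Sum.inl (Sum.inl e)) (Sum.inl (Sum.inl e')) (by simp [h1]) h2
    simpa using h3
  · intro e e' h1 h2
    have h3 := hc2 (Sum.inl (Sum.inl e)) (Sum.inl (Sum.inl e')) (by simp [h1]) h2
    simpa using h3

end Pool.Agent.TB
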