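import Pool.Agent.TB.Koenig
import Pool.Agent.TB.Geo

/-!
# Labellings and positions for 3-degenerate graphs of maximum degree 6

The vertices are ordered by an injective rank `r` such that every vertex has at most three earlier
neighbours.  `Kn v` are the earlier neighbours of `v`, `Ln v` the later ones.
-/

set_option autoImplicit false

namespace Pool.Agent.TB

/-! ### The order -/

theorem exists_rank {V : Type} [DecidableEq V] (G : SimpleGraph V) [DecidableRel G.Adj]
    (hdeg : ∀ S : Finset V, S.Nonempty → ∃ v ∈ S, (S.filter fun u => G.Adj v u).card ≤ 3) :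
    ∀ (n : ℕ) (S : Finset V), S.card = n → ∃ r : V → ℕ, (∀ v ∈ S, r v < n) ∧
      (∀ u ∈ S, ∀ v ∈ S, r u = r v → u = v) ∧
      ∀ v ∈ S, (S.filter fun u => G.Adj v u ∧ r u < r v).card ≤ 3 := by
  intro n
  induction n with
  | zero =>
    intro S hS
    rw [Finset.card_eq_zero] at hS
    subst hS
    exact ⟨fun _ => 0, by simp, by simp, by simp⟩
  | succ n ih =>
    intro S hS
    obtain ⟨v, hv, hv3⟩ := hdeg S (Finset.card_pos.mp (by omega))
    obtain ⟨r, hr1, hr2, hr3⟩ := ih (S.erase v) (by rw [Finset.card_erase_of_mem hv]; omega)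
    refine ⟨Function.update r v n, ?_, ?_, ?_⟩
    · intro u hu
      by_cases huv : u = v
      · subst huv
        rw [Function.update_self]
        omega
      · rw [Function.update_of_ne huv]
        have := hr1 u (Finset.mem_erase.mpr ⟨huv, hu⟩)
        omega
    · intro u hu w hw h
      by_cases huv : u = v
      · by_cases hwv : w = v
        · rw [huv, hwv]
        · rw [huv, Function.update_self, Function.update_of_ne hwv] at h
          have := hr1 w (Finset.mem_erase.mpr ⟨hwv, hw⟩)
          omega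
      · by_cases hwv : w = v
        · rw [hwv, Function.update_self, Function.update_of_ne huv] at h
          have := hr1 u (Finset.mem_erase.mpr ⟨huv, hu⟩)
          omega
        · rw [Function.update_of_ne huv, Function.update_of_ne hwv] at h
          exact hr2 u (Finset.mem_erase.mpr ⟨huv, hu⟩) w (Finset.mem_erase.mpr ⟨hwv, hw⟩) h
    · intro u hu
      by_cases huv : u = v
      · subst huv
        refine le_trans (Finset.card_le_card ?_) hv3
        intro w hw
        rw [Finset.mem_filter] at hw ⊢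
        exact ⟨hw.1, hw.2.1⟩
      · have h1 := hr3 u (Finset.mem_erase.mpr ⟨huv, hu⟩)
        refine le_trans (Finset.card_le_card ?_) h1
        intro w hw
        rw [Finset.mem_filter] at hw ⊢
        obtain ⟨hw1, hw2, hw3⟩ := hw
        have h2 := hr1 u (Finset.mem_erase.mpr ⟨huv, hu⟩)
        by_cases hwv : w = v
        · rw [hwv, Function.update_self, Function.update_of_ne huv] at hw3
          omega
        · rw [Function.update_of_ne hwv, Function.update_of_ne huv] at hw3
          exact ⟨Finset.mem_erase.mpr ⟨hwv, hw1⟩, hw2, hw3⟩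

/-! ### Signs -/

/-- The signs of one axis: `p v x y` means that `x`, `y` are the two neighbours of `v` with the
same label at `v`, `x` before `y` and `v` before `y`. -/
theorem exists_sign {V : Type} [DecidableEq V] (r : V → ℕ) (hr : ∀ u v, r u = r v → u = v)
    (p : V → V → V → Prop) (hp : ∀ v x y, p v x y → r v < r y ∧ r x < r y)
    (huniq : ∀ v x v' x' y, p v x y → p v' x' y → v = v' ∧ x = x') :
    ∀ n : ℕ, ∃ s : V → ℤ, (∀ v, s v = 1 ∨ s v = -1) ∧
      ∀ v x y, r y < n → p v x y → (r x < r v → s y = s v) ∧ (¬ r x < r v → s y = - s x) := by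
  intro n
  induction n with
  | zero => exact ⟨fun _ => 1, by simp, fun _ _ _ h => absurd h (Nat.not_lt_zero _)⟩
  | succ n ih =>
    obtain ⟨s, hs1, hs2⟩ := ih
    by_cases hex : ∃ v x y, r y = n ∧ p v x y
    · obtain ⟨v0, x0, y0, hy0, hp0⟩ := hex
      obtain ⟨hv0, hx0⟩ := hp _ _ _ hp0
      refine ⟨Function.update s y0 (if r x0 < r v0 then s v0 else - s x0), ?_, ?_⟩
      · intro v
        by_cases hv : v = y0
        · subst hv
          rw [Function.update_self]
          split_ifs
          · exact hs1 _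
          · rcases hs1 x0 with h | h <;> rw [h] <;> simp
        · rw [Function.update_of_ne hv]
          exact hs1 v
      · intro v x y hy hpy
        obtain ⟨h1, h2⟩ := hp _ _ _ hpy
        by_cases hyy : y = y0
        · subst hyy
          obtain ⟨e1, e2⟩ := huniq _ _ _ _ _ hpy hp0
          subst e1 e2
          have hvy : v ≠ y := fun h => by rw [h] at h1; omega
          have hxy : x ≠ y := fun h => by rw [h] at h2; omega
          rw [Function.update_self, Function.update_of_ne hvy, Function.update_of_ne hxy]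
          refine ⟨fun h => by rw [if_pos h], fun h => by rw [if_neg h]⟩
        · have hyn : r y < n := by
            rcases Nat.lt_succ_iff_lt_or_eq.mp hy with h | h
            · exact h
            · exact absurd (hr _ _ (h.trans hy0.symm)) hyy
          have hvy : v ≠ y0 := fun h => by rw [h] at h1; omega
          have hxy : x ≠ y0 := fun h => by rw [h] at h2; omega
          rw [Function.update_of_ne hyy, Function.update_of_ne hvy, Function.update_of_ne hxy]
          exact hs2 v x y hyn hpy
    · refine ⟨s, hs1, ?_⟩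
      intro v x y hy hpy
      rcases Nat.lt_succ_iff_lt_or_eq.mp hy with h | h
      · exact hs2 v x y h hpy
      · exact absurd ⟨v, x, y, h, hpy⟩ hex

/-- From labels to positions. -/
theorem valid_of_labels {V : Type} [Fintype V] [DecidableEq V] (G : SimpleGraph V)
    (r : V → ℕ) (hr : ∀ u v, r u = r v → u = v) (α : V → V → Fin 3)
    (c1 : ∀ u v, G.Adj u v → α u v ≠ α v u)
    (c2 : ∀ w u u', G.Adj w u → G.Adj w u' → r u < r w → r u' < r w → u ≠ u' →
      α w u ≠ α w u' ∧ α u w ≠ α u' w)
    (c3 : ∀ v x y z, G.Adj v x → G.Adj v y → G.Adj v z → x ≠ y → x ≠ z → y ≠ z →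
      α v x = α v y → α v x = α v z → False) :
    ∃ P : V → Fin 3 → ℤ, (∀ a u v, P u a = P v a → u = v) ∧ Valid G P α := by
  have hs : ∀ a : Fin 3, ∃ s : V → ℤ, (∀ v, s v = 1 ∨ s v = -1) ∧
      ∀ v x y, G.Adj v x → G.Adj v y → α v x = a → α v y = a → r v < r y → r x < r y →
        (r x < r v → s y = s v) ∧ (¬ r x < r v → s y = - s x) := by
    intro a
    have hbound : ∃ n, ∀ y : V, r y < n := by
      refine ⟨(Finset.univ.sup r) + 1, fun y => ?_⟩
      have := Finset.le_sup (f := r) (Finset.mem_univ y)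
      omega
    obtain ⟨n, hn⟩ := hbound
    obtain ⟨s, hs1, hs2⟩ := exists_sign r hr
      (fun v x y => G.Adj v x ∧ G.Adj v y ∧ α v x = a ∧ α v y = a ∧ r v < r y ∧ r x < r y)
      (fun v x y h => ⟨h.2.2.2.2.1, h.2.2.2.2.2⟩)
      (by
        rintro v x v' x' y ⟨h1, h2, h3, h4, h5, h6⟩ ⟨h1', h2', h3', h4', h5', h6'⟩
        have hv : v = v' := by
          by_contra hne
          exact (c2 y v v' h2.symm h2'.symm h5 h5' hne).2 (h4.trans h4'.symm)
        subst hv
        refine ⟨rfl, ?_⟩
        by_contra hne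
        refine c3 v x x' y h1 h1' h2 hne ?_ ?_ (h3.trans h3'.symm) (h3.trans h4.symm)
        · rintro rfl
          omega
        · rintro rfl
          omega) n
    refine ⟨s, hs1, ?_⟩
    intro v x y h1 h2 h3 h4 h5 h6
    exact hs2 v x y (hn y) ⟨h1, h2, h3, h4, h5, h6⟩
  choose s hs1 hs2 using hs
  refine ⟨fun v a => s a v * ((r v : ℤ) + 1), ?_, c1, ?_⟩
  · intro a u v h
    apply hr
    simp only at h
    rcases hs1 a u with e1 | e1 <;> rcases hs1 a v with e2 | e2 <;> rw [e1, e2] at h <;> omega
  · -- the case `r v < r v'`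
    have key : ∀ u v v', G.Adj u v → G.Adj u v' → r v < r v' → α u v = α u v' →
        (s (α u v) v * ((r v : ℤ) + 1) < s (α u v) u * ((r u : ℤ) + 1) ∧
          s (α u v) u * ((r u : ℤ) + 1) < s (α u v) v' * ((r v' : ℤ) + 1)) ∨
        (s (α u v) v' * ((r v' : ℤ) + 1) < s (α u v) u * ((r u : ℤ) + 1) ∧
          s (α u v) u * ((r u : ℤ) + 1) < s (α u v) v * ((r v : ℤ) + 1)) := by
      intro u v v' huv huv' hlt hl
      have hruv' : r u ≠ r v' := fun h => huv'.ne (hr _ _ h)
      have hruv : r u ≠ r v := fun h => huv.ne (hr _ _ h)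
      by_cases h1 : r u < r v'
      · have h2 := hs2 (α u v) u v v' huv huv' rfl hl.symm h1 hlt
        by_cases h3 : r v < r u
        · rw [h2.1 h3]
          rcases hs1 (α u v) u with e1 | e1 <;> rcases hs1 (α u v) v with e2 | e2 <;>
            rw [e1, e2] <;> omega
        · rw [h2.2 h3]
          rcases hs1 (α u v) u with e1 | e1 <;> rcases hs1 (α u v) v with e2 | e2 <;>
            rw [e1, e2] <;> omega
      · exact absurd hl (c2 u v v' huv huv' (by omega) (by omega)
          (fun h => by rw [h] at hlt; omega)).1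
    intro u v v' huv huv' hne hl
    simp only
    rcases Nat.lt_trichotomy (r v) (r v') with h | h | h
    · exact key u v v' huv huv' h hl
    · exact absurd (hr _ _ h) hne
    · have := key u v' v huv' huv h hl.symm
      rw [← hl] at this
      exact this.symm

/-! ### Labels -/

theorem split {V : Type} [DecidableEq V] (L : Finset V) (m : ℕ) (h : L.card ≤ 3 + m) :
    ∃ B, B ⊆ L ∧ B.card ≤ 3 ∧ (L \ B).card ≤ m := by
  by_cases h3 : L.card ≤ 3
  · exact ⟨L, Finset.Subset.refl _, h3, by simp⟩
  · obtain ⟨B, hB, hc⟩ := Finset.exists_subset_card_eq (s := L) (n := 3) (by omega)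
    refine ⟨B, hB, hc.le, ?_⟩
    rw [Finset.card_sdiff_of_subset hB]
    omega

theorem two_labels : ∀ G1 G2 g : Fin 3, G1 ≠ G2 → ∃ F1 F2 : Fin 3, F1 ≠ F2 ∧ F1 ≠ G1 ∧ F2 ≠ G2 ∧
    F1 ≠ g ∧ F2 ≠ g := by decide

theorem add_one_ne : ∀ a : Fin 3, a + 1 ≠ a := by decide

/-- The labels at the heads of the edges into one vertex: `E` are the earlier neighbours with
labels `g` at their end, `S` is the small group of later neighbours with labels `h`. -/
theorem head_labels {V : Type} [DecidableEq V] (E S : Finset V) (g h : V → Fin 3)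
    (hE : E.card ≤ 3) (hS : S.card ≤ 3 - E.card)
    (hg : ∀ u ∈ E, ∀ u' ∈ E, u ≠ u' → g u ≠ g u')
    (h1 : E.card = 1 → ∃ z : Fin 3, (∀ u ∈ E, z ≠ g u) ∧ ∀ x ∈ S, z ≠ h x) :
    ∃ F : V → Fin 3, (∀ u ∈ E, F u ≠ g u) ∧ (∀ u ∈ E, ∀ u' ∈ E, u ≠ u' → F u ≠ F u') ∧
      ∀ u ∈ E, ∀ x ∈ S, F u ≠ h x := by
  have hcases : E.card = 0 ∨ E.card = 1 ∨ E.card = 2 ∨ E.card = 3 := by omega
  rcases hcases with h0 | h0 | h0 | h0
  · rw [Finset.card_eq_zero] at h0
    subst h0
    exact ⟨fun _ => 0, by simp, by simp, by simp⟩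
  · obtain ⟨z, hz1, hz2⟩ := h1 h0
    obtain ⟨e, he⟩ := Finset.card_eq_one.mp h0
    refine ⟨fun _ => z, hz1, ?_, fun u _ => hz2⟩
    intro u hu u' hu' hne
    rw [he, Finset.mem_singleton] at hu hu'
    exact absurd (hu.trans hu'.symm) hne
  · obtain ⟨u1, u2, hne, he⟩ := Finset.card_eq_two.mp h0
    have hSc : S.card ≤ 1 := by omega
    obtain ⟨c, hc⟩ : ∃ c : Fin 3, ∀ x ∈ S, h x = c := by
      rcases S.eq_empty_or_nonempty with hS0 | ⟨x, hx⟩
      · exact ⟨0, by simp [hS0]⟩
      · exact ⟨h x, fun y hy => by rw [Finset.card_le_one.mp hSc y hy x hx]⟩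
    obtain ⟨F1, F2, f1, f2, f3, f4, f5⟩ := two_labels (g u1) (g u2) c
      (hg u1 (by simp [he]) u2 (by simp [he]) hne)
    refine ⟨fun u => if u = u1 then F1 else F2, ?_, ?_, ?_⟩
    · intro u hu
      rw [he, Finset.mem_insert, Finset.mem_singleton] at hu
      rcases hu with rfl | rfl
      · simpa using f2
      · simp only [if_neg hne.symm]
        exact f3
    · intro u hu u' hu' huu
      rw [he, Finset.mem_insert, Finset.mem_singleton] at hu hu'
      rcases hu with rfl | rfl <;> rcases hu' with rfl | rfl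
      · exact absurd rfl huu
      · simp only [if_true, if_neg hne.symm]
        exact f1
      · simp only [if_true, if_neg hne.symm]
        exact f1.symm
      · exact absurd rfl huu
    · intro u _ x hx
      rw [hc x hx]
      by_cases hu : u = u1
      · simp only [hu, if_true]
        exact f4
      · simp only [if_neg hu]
        exact f5
  · have hS0 : S = ∅ := by
      rw [← Finset.card_eq_zero]
      omega
    refine ⟨fun u => g u + 1, fun u _ => add_one_ne _, ?_, by simp [hS0]⟩
    intro u hu u' hu' hne h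
    exact hg u hu u' hu' hne (add_right_cancel h)

theorem exists_labels {V : Type} [Fintype V] [DecidableEq V] (G : SimpleGraph V)
    [DecidableRel G.Adj] (hΔ : G.maxDegree ≤ 6) (r : V → ℕ) (hr : ∀ u v, r u = r v → u = v)
    (h3 : ∀ v, (Finset.univ.filter fun u => G.Adj v u ∧ r u < r v).card ≤ 3) :
    ∃ α : V → V → Fin 3, (∀ u v, G.Adj u v → α u v ≠ α v u) ∧
    (∀ w u u', G.Adj w u → G.Adj w u' → r u < r w → r u' < r w → u ≠ u' →
      α w u ≠ α w u' ∧ α u w ≠ α u' w) ∧
    (∀ v x y z, G.Adj v x → G.Adj v y → G.Adj v z → x ≠ y → x ≠ z → y ≠ z →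
      α v x = α v y → α v x = α v z → False) := by
  obtain ⟨E, hEd⟩ : ∃ E : V → Finset V,
      ∀ v, E v = Finset.univ.filter fun u => G.Adj v u ∧ r u < r v := ⟨_, fun _ => rfl⟩
  obtain ⟨L, hLd⟩ : ∃ L : V → Finset V,
      ∀ v, L v = Finset.univ.filter fun u => G.Adj v u ∧ r v < r u := ⟨_, fun _ => rfl⟩
  have hE : ∀ v u, u ∈ E v ↔ G.Adj v u ∧ r u < r v := by
    intro v u
    simp [hEd]
  have hL : ∀ v u, u ∈ L v ↔ G.Adj v u ∧ r v < r u := by
    intro v u
    simp [hLd]
  have hE3 : ∀ v, (E v).card ≤ 3 := fun v => by rw [hEd]; exact h3 v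
  have hL6 : ∀ v, (L v).card ≤ 3 + (3 - (E v).card) := by
    intro v
    have h1 : (E v).card + (L v).card ≤ 6 := by
      rw [← Finset.card_union_of_disjoint]
      · have h2 : E v ∪ L v ⊆ G.neighborFinset v := by
          intro u hu
          rw [Finset.mem_union] at hu
          rw [SimpleGraph.mem_neighborFinset]
          rcases hu with hu | hu
          · exact ((hE v u).mp hu).1
          · exact ((hL v u).mp hu).1
        exact ((Finset.card_le_card h2).trans (G.degree_le_maxDegree v)).trans hΔ
      · rw [Finset.disjoint_left]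
        intro u hu hu'
        have h2 := ((hE v u).mp hu).2
        have h3 := ((hL v u).mp hu').2
        omega
    have := hE3 v
    omega
  choose B hBL hB3 hLB using fun v => split (L v) (3 - (E v).card) (hL6 v)
  -- the bipartite multigraph
  let Ed := {p : V × V // G.Adj p.1 p.2 ∧ r p.1 < r p.2}
  let Au := {v : V // (E v).card = 1}
  obtain ⟨l, hl⟩ : ∃ l : Ed ⊕ Au → V × Bool, l = Sum.elim
      (fun e => (e.1.1, decide (e.1.2 ∈ B e.1.1))) (fun v => (v.1, false)) := ⟨_, rfl⟩
  obtain ⟨rr, hrr⟩ : ∃ rr : Ed ⊕ Au → V, rr = Sum.elim (fun e => e.1.2) (fun v => v.1) := ⟨_, rfl⟩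
  obtain ⟨tt, htt⟩ : ∃ tt : Ed ⊕ Au → V, tt = Sum.elim (fun e => e.1.1) (fun v => v.1) := ⟨_, rfl⟩
  have hinj : ∀ i j : Ed ⊕ Au, tt i = tt j → rr i = rr j → i = j := by
    rintro (⟨⟨a, b⟩, hab⟩ | ⟨v, hv⟩) (⟨⟨a', b'⟩, hab'⟩ | ⟨v', hv'⟩) h1 h2
    · simp only [htt, hrr, Sum.elim_inl] at h1 h2
      subst h1 h2
      rfl
    · simp only [htt, hrr, Sum.elim_inl, Sum.elim_inr] at h1 h2
      exact absurd (h1.trans h2.symm) hab.1.ne
    · simp only [htt, hrr, Sum.elim_inl, Sum.elim_inr] at h1 h2
      exact absurd (h1.symm.trans h2) hab'.1.ne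
    · simp only [htt, hrr, Sum.elim_inr] at h1 h2
      subst h1
      rfl
  obtain ⟨c, hc1, hc2⟩ := koenig 3 (Ed ⊕ Au) (V × Bool) V l rr
    (by
      rintro ⟨x, b⟩
      have hcard : (Finset.univ.filter fun e => l e = (x, b)).card =
          ((Finset.univ.filter fun e => l e = (x, b)).image rr).card := by
        rw [Finset.card_image_of_injOn]
        intro i hi j hj hij
        simp only [Finset.coe_filter, Finset.mem_univ, true_and, Set.mem_ofPred_eq] at hi hj
        refine hinj i j ?_ hij
        have e1 : tt i = (l i).1 := by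
          rw [htt, hl]
          rcases i with i | i <;> rfl
        have e2 : tt j = (l j).1 := by
          rw [htt, hl]
          rcases j with j | j <;> rfl
        rw [e1, e2, hi, hj]
      rw [hcard]
      cases b with
      | true =>
        refine (Finset.card_le_card (t := B x) ?_).trans (hB3 x)
        intro y hy
        rw [Finset.mem_image] at hy
        obtain ⟨i, hi, rfl⟩ := hy
        rw [Finset.mem_filter] at hi
        rcases i with ⟨⟨a, b⟩, hab⟩ | ⟨v, hv⟩
        · simp only [hl, Sum.elim_inl, Prod.mk.injEq, decide_eq_true_eq, Finset.mem_univ,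
            true_and] at hi
          obtain ⟨rfl, hi⟩ := hi
          simpa [hrr] using hi
        · simp [hl] at hi
      | false =>
        by_cases hk : (E x).card = 1
        · have h1 : ((Finset.univ.filter fun e => l e = (x, false)).image rr) ⊆
              insert x (L x \ B x) := by
            intro y hy
            rw [Finset.mem_image] at hy
            obtain ⟨i, hi, rfl⟩ := hy
            rw [Finset.mem_filter] at hi
            rcases i with ⟨⟨a, b⟩, hab⟩ | ⟨v, hv⟩
            · simp only [hl, Sum.elim_inl, Prod.mk.injEq, decide_eq_false_iff_not,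
                Finset.mem_univ, true_and] at hi
              obtain ⟨rfl, hi⟩ := hi
              simp only [hrr, Sum.elim_inl, Finset.mem_insert, Finset.mem_sdiff]
              exact Or.inr ⟨(hL _ _).mpr hab, hi⟩
            · simp only [hl, Sum.elim_inr, Prod.mk.injEq, and_true, Finset.mem_univ,
                true_and] at hi
              simp [hrr, hi]
          refine ((Finset.card_le_card h1).trans (Finset.card_insert_le _ _)).trans ?_
          have := hLB x
          omega
        · have h1 : ((Finset.univ.filter fun e => l e = (x, false)).image rr) ⊆ L x \ B x := by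
            intro y hy
            rw [Finset.mem_image] at hy
            obtain ⟨i, hi, rfl⟩ := hy
            rw [Finset.mem_filter] at hi
            rcases i with ⟨⟨a, b⟩, hab⟩ | ⟨v, hv⟩
            · simp only [hl, Sum.elim_inl, Prod.mk.injEq, decide_eq_false_iff_not,
                Finset.mem_univ, true_and] at hi
              obtain ⟨rfl, hi⟩ := hi
              simp only [hrr, Sum.elim_inl, Finset.mem_sdiff]
              exact ⟨(hL _ _).mpr hab, hi⟩
            · simp only [hl, Sum.elim_inr, Prod.mk.injEq, and_true, Finset.mem_univ,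
                true_and] at hi
              exact absurd (hi ▸ hv) hk
          refine (Finset.card_le_card h1).trans ?_
          have := hLB x
          omega)
    (by
      intro y
      have hcard : (Finset.univ.filter fun e => rr e = y).card =
          ((Finset.univ.filter fun e => rr e = y).image tt).card := by
        rw [Finset.card_image_of_injOn]
        intro i hi j hj hij
        simp only [Finset.coe_filter, Finset.mem_univ, true_and, Set.mem_ofPred_eq] at hi hj
        exact hinj i j hij (hi.trans hj.symm)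
      rw [hcard]
      by_cases hk : (E y).card = 1
      · have h1 : ((Finset.univ.filter fun e => rr e = y).image tt) ⊆ insert y (E y) := by
          intro z hz
          rw [Finset.mem_image] at hz
          obtain ⟨i, hi, rfl⟩ := hz
          rw [Finset.mem_filter] at hi
          rcases i with ⟨⟨a, b⟩, hab⟩ | ⟨v, hv⟩
          · simp only [hrr, Sum.elim_inl, Finset.mem_univ, true_and] at hi
            subst hi
            simp only [htt, Sum.elim_inl, Finset.mem_insert]
            exact Or.inr ((hE _ _).mpr ⟨hab.1.symm, hab.2⟩)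
          · simp only [hrr, Sum.elim_inr, Finset.mem_univ, true_and] at hi
            simp [htt, hi]
        refine ((Finset.card_le_card h1).trans (Finset.card_insert_le _ _)).trans ?_
        omega
      · have h1 : ((Finset.univ.filter fun e => rr e = y).image tt) ⊆ E y := by
          intro z hz
          rw [Finset.mem_image] at hz
          obtain ⟨i, hi, rfl⟩ := hz
          rw [Finset.mem_filter] at hi
          rcases i with ⟨⟨a, b⟩, hab⟩ | ⟨v, hv⟩
          · simp only [hrr, Sum.elim_inl, Finset.mem_univ, true_and] at hi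
            subst hi
            simp only [htt, Sum.elim_inl]
            exact (hE _ _).mpr ⟨hab.1.symm, hab.2⟩
          · simp only [hrr, Sum.elim_inr, Finset.mem_univ, true_and] at hi
            exact absurd (hi ▸ hv) hk
        exact (Finset.card_le_card h1).trans (hE3 y))
  -- labels at the tails
  obtain ⟨g, hg⟩ : ∃ g : V → V → Fin 3, ∀ u w (h : G.Adj u w ∧ r u < r w),
      g u w = c (Sum.inl ⟨(u, w), h⟩) :=
    ⟨fun u w => if h : G.Adj u w ∧ r u < r w then c (Sum.inl ⟨(u, w), h⟩) else 0,
      fun u w h => by simp only [dif_pos h]⟩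
  have g1 : ∀ w, ∀ u ∈ E w, ∀ u' ∈ E w, u ≠ u' → g u w ≠ g u' w := by
    intro w u hu u' hu' hne h
    obtain ⟨a1, a2⟩ := (hE _ _).mp hu
    obtain ⟨b1, b2⟩ := (hE _ _).mp hu'
    rw [hg u w ⟨a1.symm, a2⟩, hg u' w ⟨b1.symm, b2⟩] at h
    have h2 := hc2 _ _ (by simp [hrr]) h
    have h3 := congrArg tt h2
    simp only [htt, Sum.elim_inl] at h3
    exact hne h3
  have g2 : ∀ v, ∀ x ∈ L v, ∀ x' ∈ L v, x ≠ x' → (x ∈ B v ↔ x' ∈ B v) → g v x ≠ g v x' := by
    intro v x hx x' hx' hne hiff h
    obtain ⟨a1, a2⟩ := (hL _ _).mp hx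
    obtain ⟨b1, b2⟩ := (hL _ _).mp hx'
    rw [hg v x ⟨a1, a2⟩, hg v x' ⟨b1, b2⟩] at h
    have h2 := hc1 _ _ (by simp [hl, hiff]) h
    have h3 := congrArg rr h2
    simp only [hrr, Sum.elim_inl] at h3
    exact hne h3
  have hF : ∀ w, ∃ F : V → Fin 3, (∀ u ∈ E w, F u ≠ g u w) ∧
      (∀ u ∈ E w, ∀ u' ∈ E w, u ≠ u' → F u ≠ F u') ∧
      ∀ u ∈ E w, ∀ x ∈ L w \ B w, F u ≠ g w x := by
    intro w
    refine head_labels (E w) (L w \ B w) (fun u => g u w) (fun x => g w x) (hE3 w) (hLB w)
      (g1 w) ?_
    intro hk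
    refine ⟨c (Sum.inr ⟨w, hk⟩), ?_, ?_⟩
    · intro u hu h
      obtain ⟨a1, a2⟩ := (hE _ _).mp hu
      rw [hg u w ⟨a1.symm, a2⟩] at h
      have h2 := hc2 _ _ (by simp [hrr]) h
      exact absurd h2 (by simp)
    · intro x hx h
      rw [Finset.mem_sdiff] at hx
      obtain ⟨a1, a2⟩ := (hL _ _).mp hx.1
      rw [hg w x ⟨a1, a2⟩] at h
      have h2 := hc1 _ _ (by simp [hl, hx.2]) h
      exact absurd h2 (by simp)
  choose F hF1 hF2 hF3 using hF
  obtain ⟨α, hα1, hα2⟩ : ∃ α : V → V → Fin 3, (∀ u w, r u < r w → α u w = g u w) ∧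
      (∀ u w, ¬ r u < r w → α u w = F u w) :=
    ⟨fun u w => if r u < r w then g u w else F u w, fun u w h => by simp only [if_pos h],
      fun u w h => by simp only [if_neg h]⟩
  refine ⟨α, ?_, ?_, ?_⟩
  · have key : ∀ u v, G.Adj u v → r u < r v → α u v ≠ α v u := by
      intro u v huv h
      rw [hα1 u v h, hα2 v u (by omega)]
      exact (hF1 v u ((hE _ _).mpr ⟨huv.symm, h⟩)).symm
    intro u v huv
    have hne : r u ≠ r v := fun h => huv.ne (hr _ _ h)
    rcases Nat.lt_or_ge (r u) (r v) with h | h
    · exact key u v huv h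
    · exact (key v u huv.symm (by omega)).symm
  · intro w u u' h1 h2 h3 h4 hne
    have m1 := (hE w u).mpr ⟨h1, h3⟩
    have m2 := (hE w u').mpr ⟨h2, h4⟩
    rw [hα2 w u (by omega), hα2 w u' (by omega), hα1 u w h3, hα1 u' w h4]
    exact ⟨hF2 w u m1 u' m2 hne, g1 w u m1 u' m2 hne⟩
  · -- two neighbours with the same label at `v`: at most one is earlier, at most one in each
    -- of the two groups
    have cls : ∀ v x, G.Adj v x → (x ∈ E v ∧ α v x = F v x) ∨ (x ∈ L v ∧ α v x = g v x) := by
      intro v x hvx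
      have hne : r v ≠ r x := fun h => hvx.ne (hr _ _ h)
      rcases Nat.lt_or_ge (r v) (r x) with h | h
      · exact Or.inr ⟨(hL _ _).mpr ⟨hvx, h⟩, hα1 v x h⟩
      · exact Or.inl ⟨(hE _ _).mpr ⟨hvx, by omega⟩, hα2 v x (by omega)⟩
    have two : ∀ v x y, G.Adj v x → G.Adj v y → x ≠ y → α v x = α v y →
        (x ∈ E v → y ∈ B v) ∧ (y ∈ E v → x ∈ B v) ∧ (x ∈ L v → y ∈ L v → ¬ (x ∈ B v ↔ y ∈ B v)) := by
      intro v x y hx hy hne h
      have dis : ∀ z, z ∈ E v → z ∈ L v → False := by
        intro z h1 h2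
        have h3 := ((hE v z).mp h1).2
        have h4 := ((hL v z).mp h2).2
        omega
      rcases cls v x hx with ⟨x1, x2⟩ | ⟨x1, x2⟩ <;> rcases cls v y hy with ⟨y1, y2⟩ | ⟨y1, y2⟩
      · rw [x2, y2] at h
        exact absurd h (hF2 v x x1 y y1 hne)
      · refine ⟨fun _ => ?_, fun h' => (dis y h' y1).elim, fun h' => (dis x x1 h').elim⟩
        by_contra hB
        rw [x2, y2] at h
        exact hF3 v x x1 y (Finset.mem_sdiff.mpr ⟨y1, hB⟩) h
      · refine ⟨fun h' => (dis x h' x1).elim, fun _ => ?_, fun _ h' => (dis y y1 h').elim⟩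
        by_contra hB
        rw [x2, y2] at h
        exact hF3 v y y1 x (Finset.mem_sdiff.mpr ⟨x1, hB⟩) h.symm
      · refine ⟨fun h' => (dis x h' x1).elim, fun h' => (dis y h' y1).elim, fun _ _ hiff => ?_⟩
        rw [x2, y2] at h
        exact g2 v x x1 y y1 hne hiff h
    intro v x y z hx hy hz hxy hxz hyz h1 h2
    obtain ⟨p1, p2, p3⟩ := two v x y hx hy hxy h1
    obtain ⟨q1, q2, q3⟩ := two v x z hx hz hxz h2
    obtain ⟨s1, s2, s3⟩ := two v y z hy hz hyz (h1.symm.trans h2)
    have bl : ∀ w, w ∈ B v → w ∈ L v := fun w hw => hBL v hw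
    have el : ∀ w, G.Adj v w → w ∈ E v ∨ w ∈ L v := by
      intro w hw
      rcases cls v w hw with h | h
      · exact Or.inl h.1
      · exact Or.inr h.1
    rcases el x hx with ex | ex
    · have y1 := p1 ex
      have z1 := q1 ex
      exact s3 (bl y y1) (bl z z1) ⟨fun _ => z1, fun _ => y1⟩
    · rcases el y hy with ey | ey
      · have x1 := p2 ey
        have z1 := s1 ey
        exact q3 ex (bl z z1) ⟨fun _ => z1, fun _ => x1⟩
      · rcases el z hz with ez | ez
        · have x1 := q2 ez
          have y1 := s2 ez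
          exact p3 ex ey ⟨fun _ => y1, fun _ => x1⟩
        · have t1 := p3 ex ey
          have t2 := q3 ex ez
          have t3 := s3 ey ez
          by_cases hx' : x ∈ B v
          · by_cases hy' : y ∈ B v
            · exact t1 ⟨fun _ => hy', fun _ => hx'⟩
            · by_cases hz' : z ∈ B v
              · exact t2 ⟨fun _ => hz', fun _ => hx'⟩
              · exact t3 ⟨fun h => absurd h hy', fun h => absurd h hz'⟩
          · by_cases hy' : y ∈ B v
            · by_cases hz' : z ∈ B v
              · exact t3 ⟨fun _ => hz', fun _ => hy'⟩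
              · exact t2 ⟨fun h => absurd h hx', fun h => absurd h hz'⟩
            · exact t1 ⟨fun h => absurd h hx', fun h => absurd h hy'⟩

end Pool.Agent.TB
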