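import Pool.Agent.TB.Three

/-!
# Two-bend drawings of 3-degenerate graphs of maximum degree 6

Every finite simple graph of maximum degree at most 6 in which every nonempty set `S` of vertices
has a member with at most three neighbours in `S` has a 3D orthogonal point-drawing with at most two
bends per edge, and even one in general position (no two vertices have a common coordinate).

Proof.  Order the vertices so that every vertex has at most three earlier neighbours.  Koenig's
theorem for a bipartite multigraph (tails split into two groups, one auxiliary edge for every vertex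
with exactly one earlier neighbour) gives axis labels of the half-edges (`TB.exists_labels`).  The
coordinates of the vertex of rank `r` are `± (r + 1)`, the signs are chosen recursively, such that two
edges with the same label at a vertex leave it to different sides (`TB.valid_of_labels`).
Among all such labellings for these positions take one of maximal total port length: the routes
(port, middle link, port) of this labelling have no crossing (`TB.no_cross`, `TB.drawing`).
-/

set_option autoImplicit false

namespace Pool.Agent.Results.MP_dadc3d_co.ThreeDegenerate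

/-- `x` is a lattice point of the axis-parallel segment from `p` to `q` (as in the frozen
statement). -/
def Seg (p q x : Fin 3 → ℤ) : Prop :=
  ∃ i : Fin 3, (∀ j : Fin 3, j ≠ i → x j = p j ∧ q j = p j) ∧
      ((p i ≤ x i ∧ x i ≤ q i) ∨ (q i ≤ x i ∧ x i ≤ p i))

/-- A graph of maximum degree at most 6 in which every nonempty vertex set `S` has a member with at
most three neighbours in `S` has a 3D orthogonal point-drawing in general position in which every
edge has at most two bends. -/
theorem result :
    ∀ (V : Type) [Fintype V] [DecidableEq V] (G : SimpleGraph V) [DecidableRel G.Adj],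
    G.maxDegree ≤ 6 →
    (∀ S : Finset V, S.Nonempty → ∃ v ∈ S, (S.filter fun u => G.Adj v u).card ≤ 3) →
    ∃ (f : V → Fin 3 → ℤ) (b₁ b₂ : V → V → Fin 3 → ℤ),
      (∀ (a : Fin 3) (u v : V), f u a = f v a → u = v) ∧
      Function.Injective f ∧
      (∀ u v, G.Adj u v →
        (∃ i : Fin 3, ∀ j : Fin 3, j ≠ i → f u j = b₁ u v j) ∧
        (∃ i : Fin 3, ∀ j : Fin 3, j ≠ i → b₁ u v j = b₂ u v j) ∧
        (∃ i : Fin 3, ∀ j : Fin 3, j ≠ i → b₂ u v j = f v j)) ∧
      (∀ u v w, G.Adj u v →
        (Seg (f u) (b₁ u v) (f w) ∨ Seg (b₁ u v) (b₂ u v) (f w) ∨ Seg (b₂ u v) (f v) (f w)) →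
        w = u ∨ w = v) ∧
      (∀ u v u' v' x, G.Adj u v → G.Adj u' v' → s(u, v) ≠ s(u', v') →
        (Seg (f u) (b₁ u v) x ∨ Seg (b₁ u v) (b₂ u v) x ∨ Seg (b₂ u v) (f v) x) →
        (Seg (f u') (b₁ u' v') x ∨ Seg (b₁ u' v') (b₂ u' v') x ∨ Seg (b₂ u' v') (f v') x) →
        ∃ w, x = f w ∧ (w = u ∨ w = v) ∧ (w = u' ∨ w = v')) := by
  intro V _ _ G _ hΔ hdeg
  obtain ⟨r, _, hr2, hr3⟩ := TB.exists_rank G hdeg (Fintype.card V) Finset.univ Finset.card_univ
  have hr : ∀ u v, r u = r v → u = v :=
    fun u v h => hr2 u (Finset.mem_univ u) v (Finset.mem_univ v) h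
  obtain ⟨α, c1, c2, c3⟩ := TB.exists_labels G hΔ r hr (fun v => hr3 v (Finset.mem_univ v))
  obtain ⟨P, hP, hv⟩ := TB.valid_of_labels G r hr α c1 c2 c3
  obtain ⟨b₁, b₂, h⟩ := TB.drawing hP α hv
  exact ⟨P, b₁, b₂, hP, h⟩

end Pool.Agent.Results.MP_dadc3d_co.ThreeDegenerate
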